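import Pool.Agent.U84.AWQ.Stm
import Pool.Agent.R456.CL.Dich

/-!
# Project AWQ, package JOIN: small projections have a small join
-/

set_option autoImplicit false

namespace Pool.Agent.U690.AWQ

open Pool.Agent.R456.CL Pool.Agent.R456.CL.Dich Pool.Agent.U84.AWQ

universe u

variable {A : Type u} [CStarAlgebra A]

lemma cp_pj {z p : A} (hz : CP z) (hp : PJ p) : PJ (z * p) := by
  refine mkPJ ?_ ?_
  · calc z * p * (z * p) = z * (p * z) * p := by noncomm_ring
      _ = z * (z * p) * p := by rw [hz.2 p]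
      _ = (z * z) * (p * p) := by noncomm_ring
      _ = z * p := by rw [idm hz.1, idm hp]
  · rw [star_mul, sa hp, sa hz.1, hz.2 p]

lemma cp_mul {z w : A} (hz : CP z) (hw : CP w) : CP (z * w) := by
  refine ⟨cp_pj hz hw.1, fun x => ?_⟩
  rw [mul_assoc, hw.2, ← mul_assoc, hz.2, mul_assoc]

lemma cp_one_sub {z : A} (hz : CP z) : CP (1 - z) := by
  refine ⟨mkPJ ?_ ?_, fun x => ?_⟩
  · rw [mul_sub, sub_mul, sub_mul, idm hz.1]; simp
  · rw [star_sub, star_one, sa hz.1]
  · rw [sub_mul, mul_sub, hz.2, one_mul, mul_one]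

lemma cp_zmul {z x y : A} (hz : CP z) : z * x * (z * y) = z * (x * y) := by
  calc z * x * (z * y) = z * (x * z) * y := by noncomm_ring
    _ = z * (z * x) * y := by rw [hz.2 x]
    _ = (z * z) * (x * y) := by noncomm_ring
    _ = z * (x * y) := by rw [idm hz.1]

lemma sub_cut {z p q : A} (hz : CP z) (hp : PJ p) (hq : PJ q) (h : Sub p q) :
    Sub (z * p) (z * q) := by
  rw [sub_iff hp hq] at h
  rw [sub_iff (cp_pj hz hp) (cp_pj hz hq)]
  obtain ⟨v, h1, h2⟩ := h
  refine ⟨z * v, ?_, ?_⟩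
  · rw [star_mul, sa hz.1, ← hz.2, cp_zmul hz, h1]
  · rw [cp_zmul hz, h2]

lemma pi_cut {z g : A} (hz : CP z) (hg : PI g) : PI (z * g) := by
  refine ⟨cp_pj hz hg.1, fun w hw h => ?_⟩
  rw [← mul_assoc] at h ⊢
  exact hg.2 _ (cp_mul hw hz) h

theorem t_JOIN : S_JOIN.{u} := by
  intro A _ hLR hDich g s t hgi hs ht hsg htg hns hnt
  have hg : PJ g := hgi.1
  unfold Le at hsg htg
  obtain ⟨w, R, L, hR, hL, w1, w2, x1, x2, x3, x4⟩ := hLR ((1 - t) * s)
  have tt := idm ht
  have ss := idm hs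
  have tL : t * L = 0 := by
    apply x4
    rw [← mul_assoc, mul_sub, mul_one, tt, sub_self, zero_mul]
  have Lt : L * t = 0 := orth_symm ht hL tL
  have gL : g * L = L := by
    have h1 : (1 - g) * ((1 - t) * s) = 0 := by
      have e : (1 - g) * ((1 - t) * s) = s - g * s - t * s + g * t * s := by noncomm_ring
      rw [e, le_symm hs hg hsg, le_symm ht hg htg]
      simp
    have h2 := x4 _ h1
    rw [sub_mul, one_mul, sub_eq_zero] at h2
    exact h2.symm
  have Lg : L * g = L := le_symm' hL hg gL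
  have Rs : R * s = R := by
    have h1 : (1 - t) * s * (1 - s) = 0 := by
      rw [mul_assoc, mul_sub, mul_one, ss, sub_self, mul_zero]
    have h2 := x3 _ h1
    rw [mul_sub, mul_one, sub_eq_zero] at h2
    exact h2.symm
  have Ls : L * s = s - t * s := by
    have h1 := x2
    have e : L * ((1 - t) * s) = L * s - L * t * s := by noncomm_ring
    rw [e, Lt, zero_mul, sub_zero] at h1
    rw [h1]
    noncomm_ring
  have hc : PJ (t + L) := pj_add ht hL tL
  refine ⟨t + L, hc, ?_, ?_, ?_, ?_⟩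
  · unfold Le
    rw [add_mul, htg, Lg]
  · unfold Le
    apply le_symm' hs hc
    rw [add_mul, Ls]
    abel
  · unfold Le
    rw [mul_add, tt, tL, add_zero]
  · intro z hz hzg hsub
    rw [mul_add] at hsub
    have h0 : z * t * (z * L) = 0 := by rw [cp_zmul hz, tL, mul_zero]
    obtain ⟨z1, hz1, s1, s2⟩ := hDich (z * g) (z * t) (z * L) (pi_cut hz hgi) (cp_pj hz ht)
      (cp_pj hz hL) h0 hsub
    by_cases hc0 : z1 * (z * g) = 0
    · have hz2 : CP ((1 - z1) * z) := cp_mul (cp_one_sub hz1) hz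
      have hne : (1 - z1) * z * g ≠ 0 := by
        rw [mul_assoc, sub_mul, one_mul, hc0, sub_zero]
        exact hzg
      rw [← mul_assoc, ← mul_assoc] at s2
      refine hns _ hz2 hne ?_
      have h1 : Sub L R := by
        rw [sub_iff hL hR]
        refine ⟨star w, by rw [star_star, w2], ?_⟩
        have h2 : w * R = w := init hR w1
        have := congrArg star h2
        rwa [star_mul, sa hR] at this
      have h3 : Sub L s := sub_trans hL hR hs h1 (sub_of_le hR hs Rs)
      exact sub_trans (cp_pj hz2 hg) (cp_pj hz2 hL) (cp_pj hz2 hs) s2 (sub_cut hz2 hL hs h3)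
    · rw [← mul_assoc] at hc0
      rw [← mul_assoc, ← mul_assoc] at s1
      exact hnt _ (cp_mul hz1 hz) hc0 s1

end Pool.Agent.U690.AWQ
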